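import Pool.Agent.Helper831_DS.Four4

/-! MP_a57f33_nt: in odd weight, an element of the double shuffle Lie algebra all of whose words have
at least four letters `x₀` has at least five letters `x₀` in each word. -/

set_option autoImplicit false

namespace Pool.Agent.Results.MP_a57f33_nt.OddWeightFour

open Pool.Agent.H777R4.DM

/-- Let `ψ ∈ dm₀` be an element such that every word with a nonzero coefficient has at least four
letters `x₀`. Then every word of odd length with a nonzero coefficient has at least five
letters `x₀`. -/
theorem result (ψ : A) (hψ : IsDM ψ) (h : ∀ u, co ψ u ≠ 0 → 4 ≤ u.count 0) :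
    ∀ u, Odd u.length → co ψ u ≠ 0 → 5 ≤ u.count 0 := by
  intro u hu hne
  have h1 : IsDM (comp u.length ψ) := Pool.Agent.H217R3.DMC.taskComp ψ u.length hψ
  have h2 : LenHom (comp u.length ψ) u.length := by
    intro w hw
    by_contra hc
    rw [co_comp, if_neg hc] at hw
    exact hw rfl
  refine Pool.Agent.Helper831_DS.five_le h1 h2 (fun w hw => ?_) hu u ?_
  · by_cases hc : w.length = u.length
    · rw [co_comp, if_pos hc] at hw
      exact h w hw
    · rw [co_comp, if_neg hc] at hw
      exact absurd rfl hw
  · rw [co_comp, if_pos rfl]
    exact hne

end Pool.Agent.Results.MP_a57f33_nt.OddWeightFour
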